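import Pool.Agent.Helper98.GX.St3

/-!
# Project GX, module PRF: prime divisors meeting the chart are the P-adic valuations
-/

set_option autoImplicit false

open scoped BigOperators
open MvPolynomial

namespace Pool.Agent.Helper54.GX

open Pool.Agent.Helper98.GX
open Pool.Agent.Helper53.CX (DivVal LinSys IsNefCartier Pn Kn x padOrd extOrd)

section val

variable {K : Type} [Field K] [Algebra ℂ K] (q : DivVal K)

private theorem ord_one : q.ord 1 = 0 := by
  have h := q.ord_mul 1 1 one_ne_zero one_ne_zero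
  rw [mul_one] at h
  omega

private theorem ord_pow {f : K} (hf : f ≠ 0) (k : ℕ) : q.ord (f ^ k) = k * q.ord f := by
  induction k with
  | zero => simp [ord_one q]
  | succ k ih =>
    rw [pow_succ, q.ord_mul _ _ (pow_ne_zero k hf) hf, ih]
    push_cast
    ring

private theorem ord_const (c : ℂ) : q.ord (algebraMap ℂ K c) = 0 := by
  by_cases hc : c = 0
  · rw [hc, map_zero, q.ord_zero]
  · set m := q.ord (algebraMap ℂ K c) with hm
    obtain ⟨d, hd⟩ := IsAlgClosed.exists_pow_nat_eq c (Nat.succ_pos m.natAbs)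
    have hd0 : d ≠ 0 := by
      rintro rfl
      apply hc
      rw [← hd]
      exact zero_pow (Nat.succ_ne_zero _)
    have hd1 : algebraMap ℂ K d ≠ 0 := by
      rw [map_ne_zero]
      exact hd0
    have h1 : m = ((m.natAbs + 1 : ℕ) : ℤ) * q.ord (algebraMap ℂ K d) := by
      rw [← ord_pow q hd1, ← map_pow, hd]
    have h2 : ((m.natAbs + 1 : ℕ) : ℤ) ∣ m := ⟨_, h1⟩
    by_contra hne
    have h3 := Int.natAbs_dvd_natAbs.2 h2
    have h4 : (((m.natAbs + 1 : ℕ) : ℤ)).natAbs = m.natAbs + 1 := Int.natAbs_natCast _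
    rw [h4] at h3
    have h5 : 0 < m.natAbs := Int.natAbs_pos.2 hne
    have h6 := Nat.le_of_dvd h5 h3
    omega

private theorem ord_inv {f : K} (hf : f ≠ 0) : q.ord f⁻¹ = - q.ord f := by
  have h := q.ord_mul f f⁻¹ hf (inv_ne_zero hf)
  rw [mul_inv_cancel₀ hf, ord_one q] at h
  omega

private theorem ord_div {f g : K} (hf : f ≠ 0) (hg : g ≠ 0) : q.ord (f / g) = q.ord f - q.ord g := by
  rw [div_eq_mul_inv, q.ord_mul _ _ hf (inv_ne_zero hg), ord_inv q hg]
  ring

/-- a polynomial in elements of nonnegative order has nonnegative order -/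
private theorem ord_poly {n : ℕ} (ψ : Pn n →ₐ[ℂ] K) (h : ∀ j, 0 ≤ q.ord (ψ (X j))) (p : Pn n) :
    0 ≤ q.ord (ψ p) := by
  induction p using MvPolynomial.induction_on with
  | C c =>
    have h1 : ψ (C c) = algebraMap ℂ K c := by
      have := ψ.commutes c
      rwa [MvPolynomial.algebraMap_eq] at this
    rw [h1, ord_const q c]
  | add p r hp hr =>
    rw [map_add]
    by_cases h1 : ψ p = 0
    · rw [h1, zero_add]; exact hr
    by_cases h2 : ψ r = 0
    · rw [h2, add_zero]; exact hp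
    by_cases h3 : ψ p + ψ r = 0
    · rw [h3, q.ord_zero]
    exact le_trans (le_min hp hr) (q.ord_add _ _ h1 h2 h3)
  | mul_X p j hp =>
    rw [map_mul]
    by_cases h1 : ψ p = 0
    · rw [h1, zero_mul, q.ord_zero]
    by_cases h2 : ψ (X j) = 0
    · rw [h2, mul_zero, q.ord_zero]
    rw [q.ord_mul _ _ h1 h2]
    have := h j
    omega

private theorem padic {n : ℕ} (ψ : Pn n →ₐ[ℂ] K) (hinj : Function.Injective ψ)
    (hnn : ∀ p, 0 ≤ q.ord (ψ p)) (P : Pn n) (hP1 : q.ord (ψ P) = 1)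
    (hdvd : ∀ p, p ≠ 0 → 1 ≤ q.ord (ψ p) → P ∣ p) :
    Irreducible P ∧ ∀ p, p ≠ 0 → q.ord (ψ p) = (multiplicity P p : ℤ) := by
  have hne : ∀ p, p ≠ 0 → ψ p ≠ 0 := fun p hp h => hp (hinj (by rw [h, map_zero]))
  have hP0 : P ≠ 0 := by
    rintro rfl
    rw [map_zero, q.ord_zero] at hP1
    omega
  have hmul : ∀ a b, a ≠ 0 → b ≠ 0 → q.ord (ψ (a * b)) = q.ord (ψ a) + q.ord (ψ b) := by
    intro a b ha hb
    rw [map_mul, q.ord_mul _ _ (hne a ha) (hne b hb)]
  have hnu : ¬ IsUnit P := by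
    intro hu
    obtain ⟨s, hs⟩ := hu.exists_right_inv
    have hs0 : s ≠ 0 := by
      rintro rfl
      rw [mul_zero] at hs
      exact zero_ne_one hs
    have h1 := hmul P s hP0 hs0
    rw [hs, map_one, ord_one q, hP1] at h1
    have := hnn s
    omega
  have hprime : Prime P := by
    refine ⟨hP0, hnu, ?_⟩
    intro a b hab
    by_cases ha : a = 0
    · left; rw [ha]; exact dvd_zero P
    by_cases hb : b = 0
    · right; rw [hb]; exact dvd_zero P
    obtain ⟨s, hs⟩ := hab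
    have hs0 : s ≠ 0 := by
      rintro rfl
      rw [mul_zero] at hs
      rcases mul_eq_zero.1 hs with h | h
      · exact ha h
      · exact hb h
    have h1 := hmul a b ha hb
    rw [hs, hmul P s hP0 hs0, hP1] at h1
    have h2 := hnn s
    rcases lt_or_ge (q.ord (ψ a)) 1 with h3 | h3
    · right
      exact hdvd b hb (by omega)
    · left
      exact hdvd a ha h3
  refine ⟨hprime.irreducible, ?_⟩
  intro p hp
  have hfin : FiniteMultiplicity P p := FiniteMultiplicity.of_not_isUnit hnu hp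
  obtain ⟨c, hc, hcd⟩ := hfin.exists_eq_pow_mul_and_not_dvd
  have hc0 : c ≠ 0 := by
    rintro rfl
    exact hcd (dvd_zero P)
  have h1 : q.ord (ψ c) = 0 := by
    have h2 := hnn c
    by_contra h3
    exact hcd (hdvd c hc0 (by omega))
  conv_lhs => rw [hc]
  rw [hmul _ _ (pow_ne_zero _ hP0) hc0, map_pow, ord_pow q (hne P hP0), hP1, h1]
  ring

end val

theorem hPRF (hOUR : StOUR) : StPRF := by
  intro K _ _ V r B n L Fr β L' e hch σ hσ
  obtain ⟨hmem, hdiv⟩ := hOUR K V r B n L Fr β hch.base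
  set ψ : Pn n →ₐ[ℂ] K := (σ : Kn n →ₐ[ℂ] K).comp (IsScalarTower.toAlgHom ℂ (Pn n) (Kn n)) with hψ
  have hψa : ∀ p, ψ p = σ (algebraMap (Pn n) (Kn n) p) := fun p => rfl
  have hψX : ∀ j, ψ (X j) = L'.z j := fun j => by
    rw [hψa]
    exact hσ j
  have hinj : Function.Injective ψ := by
    intro a b hab
    rw [hψa, hψa] at hab
    exact IsFractionRing.injective (Pn n) (Kn n) (σ.injective hab)
  have hne : ∀ p, p ≠ 0 → ψ p ≠ 0 := fun p hp h => hp (hinj (by rw [h, map_zero]))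
  -- the coordinate ring
  have hR : Algebra.adjoin ℂ (Set.range fun a => Fr.g a / Fr.g (β (Fr.bl a))) ≤ ψ.range := by
    rw [Algebra.adjoin_le_iff]
    rintro _ ⟨a, rfl⟩
    by_cases ha : a = β (Fr.bl a)
    · have h1 : Fr.g a / Fr.g (β (Fr.bl a)) = 1 := by
        rw [← ha]
        exact div_self (Fr.ne a)
      show Fr.g a / Fr.g (β (Fr.bl a)) ∈ ψ.range
      rw [h1]
      exact one_mem _
    · obtain ⟨j, hj⟩ := (hch.range a).2 ha
      refine ⟨X j, ?_⟩
      show ψ (X j) = _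
      rw [hψX, hch.z_eq, hj]
  -- nonnegative order at finite primes
  have hnn : ∀ q ∈ V.primes, (∀ k, q ≠ Fr.pr (β k)) → ∀ p, 0 ≤ q.ord (ψ p) := by
    intro q hq hqf
    apply ord_poly
    intro j
    rw [hψX, hch.z_eq, ord_div q (Fr.ne _) (Fr.ne _)]
    have h1 : q.ord (Fr.g (β (Fr.bl (e j)))) + (B.H (Fr.bl (β (Fr.bl (e j))))).div q = 0 :=
      Fr.div_other _ q hq (hqf _)
    rw [hch.base] at h1
    by_cases h2 : q = Fr.pr (e j)
    · have h3 := Fr.div_self (e j)
      rw [← h2] at h3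
      omega
    · have h3 := Fr.div_other (e j) q hq h2
      omega
  have hin : ∀ f : K, f ≠ 0 → (∀ q ∈ V.primes, (∀ k, q ≠ Fr.pr (β k)) → 0 ≤ q.ord f) →
      ∃ p, ψ p = f := by
    intro f hf h
    obtain ⟨p, hp⟩ := hR (hmem f hf h)
    exact ⟨p, hp⟩
  -- quotients
  have hquot : ∀ (q : DivVal K) (P : Pn n), (∀ p, p ≠ 0 → q.ord (ψ p) = (multiplicity P p : ℤ)) →
      ∀ f : Kn n, q.ord (σ f) = padOrd P f := by
    intro q P h f
    unfold Pool.Agent.Helper53.CX.padOrd Pool.Agent.Helper53.CX.extOrd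
    by_cases hf : f = 0
    · rw [if_pos hf, hf, map_zero, q.ord_zero]
    · rw [if_neg hf]
      have hs := IsLocalization.sec_spec (nonZeroDivisors (Pn n)) f
      set s := IsLocalization.sec (nonZeroDivisors (Pn n)) f with hsdef
      have hs2 : (s.2 : Pn n) ≠ 0 := nonZeroDivisors.ne_zero s.2.2
      have hs2' : algebraMap (Pn n) (Kn n) s.2 ≠ 0 := fun h0 =>
        hs2 (IsFractionRing.injective (Pn n) (Kn n) (by rw [h0, map_zero]))
      have hs1 : s.1 ≠ 0 := by
        intro h0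
        rw [h0, map_zero] at hs
        rcases mul_eq_zero.1 hs with h1 | h1
        · exact hf h1
        · exact hs2' h1
      have h1 : σ f * ψ s.2 = ψ s.1 := by
        rw [hψa, hψa, ← map_mul, hs]
      have hσf : σ f ≠ 0 := by
        rw [map_ne_zero_iff σ σ.injective]
        exact hf
      have h2 := q.ord_mul (σ f) (ψ s.2) hσf (hne _ hs2)
      rw [h1, h _ hs1, h _ hs2] at h2
      linarith
  -- (1)
  have hone : ∀ q ∈ V.primes, (∀ k, q ≠ Fr.pr (β k)) → ∃ P : Pn n, q.ord (ψ P) = 1 ∧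
      ∀ p, p ≠ 0 → 1 ≤ q.ord (ψ p) → P ∣ p := by
    intro q hq hqf
    obtain ⟨u, φ, hu, -, -, -, hqu, hoth, -⟩ := hdiv q hq hqf
    have hex : ∃ P, ψ P = u := by
      apply hin u hu
      intro q' hq' hqf'
      by_cases h : q' = q
      · rw [h, hqu]; exact zero_le_one
      · rw [hoth q' hq' hqf' h]
    obtain ⟨P, hP⟩ := hex
    refine ⟨P, by rw [hP, hqu], ?_⟩
    intro p hp h1
    have h2 : ∃ s, ψ s = ψ p / u := by
      apply hin _ (div_ne_zero (hne p hp) hu)
      intro q' hq' hqf'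
      rw [ord_div q' (hne p hp) hu]
      by_cases h : q' = q
      · rw [h, hqu]; omega
      · rw [hoth q' hq' hqf' h]
        have := hnn q' hq' hqf' p
        omega
    obtain ⟨s, hs⟩ := h2
    refine ⟨s, hinj ?_⟩
    rw [map_mul, hP, hs, mul_div_cancel₀ _ hu]
  refine ⟨?_, ?_⟩
  · intro q hq hqf
    obtain ⟨P, hP1, hPd⟩ := hone q hq hqf
    obtain ⟨h1, h2⟩ := padic q ψ hinj (hnn q hq hqf) P hP1 hPd
    exact ⟨P, h1, hquot q P h2⟩
  · intro P hP
    have hP0 : P ≠ 0 := hP.ne_zero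
    have hex : ∃ q ∈ V.primes, (∀ k, q ≠ Fr.pr (β k)) ∧ 1 ≤ q.ord (ψ P) := by
      by_contra hcon
      push_neg at hcon
      have h1 : ∃ s, ψ s = (ψ P)⁻¹ := by
        apply hin _ (inv_ne_zero (hne P hP0))
        intro q hq hqf
        rw [ord_inv q (hne P hP0)]
        have := hcon q hq hqf
        omega
      obtain ⟨s, hs⟩ := h1
      apply hP.not_isUnit
      apply IsUnit.of_mul_eq_one s
      apply hinj
      rw [map_mul, hs, map_one, mul_inv_cancel₀ (hne P hP0)]
    obtain ⟨q, hq, hqf, hqP⟩ := hex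
    obtain ⟨P', hP1, hPd⟩ := hone q hq hqf
    obtain ⟨h1, -⟩ := padic q ψ hinj (hnn q hq hqf) P' hP1 hPd
    have hdv : P' ∣ P := hPd P hP0 hqP
    have hass : Associated P' P := h1.associated_of_dvd hP hdv
    obtain ⟨w, hw⟩ := hass
    have hord : q.ord (ψ P) = 1 := by
      rw [← hw, map_mul, q.ord_mul _ _ (hne _ h1.ne_zero) (hne _ w.ne_zero), hP1]
      have h2 : q.ord (ψ (w : Pn n)) + q.ord (ψ ((w⁻¹ : (Pn n)ˣ) : Pn n)) = 0 := by
        rw [← q.ord_mul _ _ (hne _ w.ne_zero) (hne _ (w⁻¹).ne_zero), ← map_mul, Units.mul_inv,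
          map_one, ord_one q]
      have h3 := hnn q hq hqf (w : Pn n)
      have h4 := hnn q hq hqf ((w⁻¹ : (Pn n)ˣ) : Pn n)
      omega
    have hPd' : ∀ p, p ≠ 0 → 1 ≤ q.ord (ψ p) → P ∣ p := by
      intro p hp h2
      have h3 := hPd p hp h2
      rw [← hw]
      exact (Units.mul_right_dvd).2 h3
    obtain ⟨-, h5⟩ := padic q ψ hinj (hnn q hq hqf) P hord hPd'
    exact ⟨q, hq, hqf, hquot q P h5⟩

end Pool.Agent.Helper54.GX
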